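import Pool.Agent.TH22.LT.M10

/-!
# The reduced labellings of one oriented tree: most are diagrammatically reducible

Let `T` be a tree with the vertices `0, …, n-1` and let its edges be oriented, `i(e) → t(e)`. A
labelling `λ` of the edges by vertices gives a labelled oriented tree; its 2-complex is the complex
of the presentation with the vertices as generators and the `n - 1` relators
`i(e) λ(e) t(e)⁻¹ λ(e)⁻¹`. One more 2-cell attached along a generator gives a finite contractible
2-complex (`MP_6de9fc_gt.ReducedTrees`, part (1)), so these complexes and their subcomplexes are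
subcomplexes of finite contractible 2-complexes, the case of Whitehead's question which comes from
ribbon disc complements.

The labelling is *reduced* if no label is an end point of its edge, edges with the same initial
vertex or the same terminal vertex have different labels, and every leaf is a label. It is shown for
EVERY oriented tree that, of all its reduced labellings, at most the proportion
`10^23 (∑ v, deg(v)^7) / n^2` gives a 2-complex with a subcomplex which is not diagrammatically
reducible. For trees of bounded degree this is `O(1/n)`, and it tends to `0` as soon as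
`∑ deg(v)^7 = o(n^2)`, for example if all degrees are at most `n^c`, `c < 1/7`.
-/

set_option autoImplicit false

namespace Pool.Agent.Results.MP_6de9fc_gt.FixedReducedTree

open Pool.Agent.H891R2.RL

/-- The labelling is reduced: no label is an end point of its edge, edges which begin at the same
vertex or end at the same vertex have different labels, and every leaf (vertex on exactly one edge)
is a label. -/
def Reduced {V E : Type} (L : LOG V E) : Prop :=
  (∀ e, L.lab e ≠ L.ini e ∧ L.lab e ≠ L.ter e) ∧
  (∀ e f, e ≠ f → (L.ini e = L.ini f ∨ L.ter e = L.ter f) → L.lab e ≠ L.lab f) ∧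
  ∀ x, (∃! e, L.ini e = x ∨ L.ter e = x) → ∃ f, L.lab f = x

/-- a reduced spherical diagram over a subcomplex is one over the complex -/
lemma dr_sub {X R : Type} (r : R → Fin 4 → X × Bool) (S : Set R) (h : DR r) :
    DR (fun e : S => r e) := by
  intro D hD
  refine h { D := D.D, finD := D.finD, nonemptyD := D.nonemptyD, nxt := D.nxt, opp := D.opp,
             opp_ne := D.opp_ne, opp_opp := D.opp_opp, connected := D.connected,
             euler := D.euler, cell := fun d => (D.cell d : R), pos := D.pos, sgn := D.sgn,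
             face := D.face, cell_nxt := fun d => by rw [D.cell_nxt],
             sgn_nxt := D.sgn_nxt, pos_nxt := D.pos_nxt, letter_opp := D.letter_opp } ?_
  intro d hd
  exact hD d ⟨Subtype.ext hd.1, hd.2⟩

/-- **Most reduced labellings of an oriented tree are diagrammatically reducible.** -/
theorem result (n : ℕ) (hn : 3 ≤ n) (T : SimpleGraph (Fin n)) (hT : T.IsTree)
    (ini ter : T.edgeSet → Fin n) (he : ∀ e, s(ini e, ter e) = e.1) :
    (Nat.card {lab : T.edgeSet → Fin n // Reduced (⟨ini, ter, lab⟩ : LOG (Fin n) T.edgeSet) ∧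
      ∃ S : Set T.edgeSet,
        ¬ DR (fun e : S => (⟨ini, ter, lab⟩ : LOG (Fin n) T.edgeSet).rel e)} : ℝ) ≤
    10 ^ 23 * (∑ v : Fin n, ((T.neighborSet v).ncard : ℝ) ^ 7) / (n : ℝ) ^ 2 *
      (Nat.card {lab : T.edgeSet → Fin n //
        Reduced (⟨ini, ter, lab⟩ : LOG (Fin n) T.edgeSet)} : ℝ) := by
  have key := Pool.Agent.TH22.LT.fixed_reduced n hn T hT ini ter he
  have hne : ∀ e, ini e ≠ ter e := by
    intro e h
    have h1 := e.2
    rw [← he e, h] at h1
    exact T.loopless.irrefl _ ((SimpleGraph.mem_edgeSet T).1 h1)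
  have hred : ∀ lab : T.edgeSet → Fin n, Reduced (⟨ini, ter, lab⟩ : LOG (Fin n) T.edgeSet) ↔
      Pool.Agent.TH22.LT.RedLOG (⟨ini, ter, lab⟩ : LOG (Fin n) T.edgeSet) := by
    intro lab
    constructor
    · rintro ⟨h1, h2, h3⟩
      exact ⟨fun e => ⟨hne e, h1 e⟩, h2, h3⟩
    · rintro ⟨h1, h2, h3⟩
      exact ⟨fun e => (h1 e).2, h2, h3⟩
  have e1 : {lab : T.edgeSet → Fin n |
      Pool.Agent.TH22.LT.RedLOG (⟨ini, ter, lab⟩ : LOG (Fin n) T.edgeSet) ∧
      ¬ DR (⟨ini, ter, lab⟩ : LOG (Fin n) T.edgeSet).rel} =
      {lab : T.edgeSet → Fin n | Reduced (⟨ini, ter, lab⟩ : LOG (Fin n) T.edgeSet) ∧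
        ∃ S : Set T.edgeSet,
          ¬ DR (fun e : S => (⟨ini, ter, lab⟩ : LOG (Fin n) T.edgeSet).rel e)} := by
    ext lab
    constructor
    · rintro ⟨h2, h3⟩
      refine ⟨(hred lab).2 h2, Set.univ, ?_⟩
      intro h4
      apply h3
      intro D hD
      refine h4 { D := D.D, finD := D.finD, nonemptyD := D.nonemptyD, nxt := D.nxt, opp := D.opp,
                  opp_ne := D.opp_ne, opp_opp := D.opp_opp, connected := D.connected,
                  euler := D.euler, cell := fun d => ⟨D.cell d, trivial⟩, pos := D.pos,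
                  sgn := D.sgn, face := D.face, cell_nxt := fun d => by rw [D.cell_nxt],
                  sgn_nxt := D.sgn_nxt, pos_nxt := D.pos_nxt, letter_opp := D.letter_opp } ?_
      intro d hd
      exact hD d ⟨congrArg Subtype.val hd.1, hd.2⟩
    · rintro ⟨h2, S, h3⟩
      exact ⟨(hred lab).1 h2, fun h4 => h3 (dr_sub _ S h4)⟩
  have e2 : {lab : T.edgeSet → Fin n |
      Pool.Agent.TH22.LT.RedLOG (⟨ini, ter, lab⟩ : LOG (Fin n) T.edgeSet)} =
      {lab : T.edgeSet → Fin n | Reduced (⟨ini, ter, lab⟩ : LOG (Fin n) T.edgeSet)} := by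
    ext lab
    exact (hred lab).symm
  rw [e1, e2] at key
  have c1 : Nat.card {lab : T.edgeSet → Fin n //
      Reduced (⟨ini, ter, lab⟩ : LOG (Fin n) T.edgeSet) ∧ ∃ S : Set T.edgeSet,
        ¬ DR (fun e : S => (⟨ini, ter, lab⟩ : LOG (Fin n) T.edgeSet).rel e)} =
      {lab : T.edgeSet → Fin n | Reduced (⟨ini, ter, lab⟩ : LOG (Fin n) T.edgeSet) ∧
        ∃ S : Set T.edgeSet,
          ¬ DR (fun e : S => (⟨ini, ter, lab⟩ : LOG (Fin n) T.edgeSet).rel e)}.ncard :=
    Nat.card_coe_set_eq _
  have c2 : Nat.card {lab : T.edgeSet → Fin n //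
      Reduced (⟨ini, ter, lab⟩ : LOG (Fin n) T.edgeSet)} =
      {lab : T.edgeSet → Fin n | Reduced (⟨ini, ter, lab⟩ : LOG (Fin n) T.edgeSet)}.ncard :=
    Nat.card_coe_set_eq _
  rw [c1, c2]
  exact key

end Pool.Agent.Results.MP_6de9fc_gt.FixedReducedTree
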