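import Pool.Agent.TH22.LT.M9
import Pool.Agent.TH272.WH.Triv

/-!
# Almost all reduced labelled oriented trees are diagrammatically reducible

A labelled oriented tree on `n` vertices has `n - 1` directed edges `i(e) → t(e)`, labelled by
vertices `λ(e)`; its 2-complex is the complex of the presentation with the vertices as generators
and the relators `i(e) λ(e) t(e)⁻¹ λ(e)⁻¹`. One more 2-cell attached along one generator gives a
finite contractible 2-complex (its fundamental group is trivial, part (1); it has one 0-cell, `n`
1-cells and `n` 2-cells), so these complexes and their subcomplexes are subcomplexes of finite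
contractible 2-complexes: the test case of Whitehead's question which comes from ribbon disc
complements.

A labelled oriented tree is *reduced* if no label is an end point of its edge, two edges with the
same initial vertex or the same terminal vertex have different labels, and every leaf is a label of
some edge. Every labelled oriented tree can be reduced without changing the homotopy type of the
complex, and the question is usually studied for the reduced ones. They are an exponentially small
part of all labelled oriented trees, so nothing about them follows from a statement on almost all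
labelled trees (`MP_6de9fc_gt.AlmostAllTrees`).

Part (2): for all reduced labelled oriented trees on the vertices `0, …, n-1` with edges
`0, …, n-2`, but the proportion `10^36 / n`, all subcomplexes of the 2-complex are
diagrammatically reducible (no reduced spherical diagrams; this implies asphericity).
-/

set_option autoImplicit false

namespace Pool.Agent.Results.MP_6de9fc_gt.ReducedTrees

open Pool.Agent.H891R2.RL

/-- The underlying graph of the labelled oriented graph `L` is a tree. -/
def IsTree {V E : Type} (L : LOG V E) : Prop :=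
  (SimpleGraph.fromEdgeSet (Set.range fun e => s(L.ini e, L.ter e))).IsTree

/-- `L` is reduced: no label is an end point of its edge, edges which begin at the same vertex or end
at the same vertex have different labels, and every leaf (vertex on exactly one edge) is a label. -/
def Reduced {V E : Type} (L : LOG V E) : Prop :=
  (∀ e, L.lab e ≠ L.ini e ∧ L.lab e ≠ L.ter e) ∧
  (∀ e f, e ≠ f → (L.ini e = L.ini f ∨ L.ter e = L.ter f) → L.lab e ≠ L.lab f) ∧
  ∀ x, (∃! e, L.ini e = x ∨ L.ter e = x) → ∃ f, L.lab f = x

/-- The relator `i(e) λ(e) t(e)⁻¹ λ(e)⁻¹` in the free group on the vertices. -/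
def word {V E : Type} (L : LOG V E) (e : E) : FreeGroup V :=
  FreeGroup.of (L.ini e) * FreeGroup.of (L.lab e) * (FreeGroup.of (L.ter e))⁻¹ *
    (FreeGroup.of (L.lab e))⁻¹

lemma triv {V E : Type} (L : LOG V E) (hL : IsTree L) (v : V) :
    ∀ g : PresentedGroup (Set.range (word L) ∪ {FreeGroup.of v}), g = 1 := by
  set R : Set (FreeGroup V) := Set.range (word L) ∪ {FreeGroup.of v} with hR
  have h0 : (PresentedGroup.of v : PresentedGroup R) = 1 :=
    PresentedGroup.one_of_mem (Or.inr rfl)
  have hrel : ∀ e, (PresentedGroup.of (L.ini e) : PresentedGroup R) *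
      PresentedGroup.of (L.lab e) * (PresentedGroup.of (L.ter e))⁻¹ *
      (PresentedGroup.of (L.lab e))⁻¹ = 1 := by
    intro e
    have h1 : PresentedGroup.mk R (word L e) = 1 :=
      PresentedGroup.one_of_mem (Or.inl ⟨e, rfl⟩)
    unfold word at h1
    rw [map_mul, map_mul, map_mul, map_inv, map_inv] at h1
    exact h1
  have hadj : ∀ a b, (SimpleGraph.fromEdgeSet (Set.range fun e => s(L.ini e, L.ter e))).Adj a b →
      (PresentedGroup.of a : PresentedGroup R) = 1 →
      (PresentedGroup.of b : PresentedGroup R) = 1 := by
    intro a b hab ha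
    rw [SimpleGraph.fromEdgeSet_adj] at hab
    obtain ⟨⟨e, he⟩, -⟩ := hab
    have hr := hrel e
    simp only [Sym2.eq_iff] at he
    rcases he with ⟨h1, h2⟩ | ⟨h1, h2⟩
    · rw [h1, h2, ha] at hr
      simpa using hr
    · rw [h1, h2, ha] at hr
      simpa using hr
  have hall : ∀ a, (PresentedGroup.of a : PresentedGroup R) = 1 := by
    intro a
    obtain ⟨w⟩ := hL.connected.preconnected v a
    have key : ∀ (x y : V) (w : (SimpleGraph.fromEdgeSet
        (Set.range fun e => s(L.ini e, L.ter e))).Walk x y),
        (PresentedGroup.of x : PresentedGroup R) = 1 →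
        (PresentedGroup.of y : PresentedGroup R) = 1 := by
      intro x y w
      induction w with
      | nil => exact id
      | cons h _ ih => exact fun ha => ih (hadj _ _ h ha)
    exact key v a w h0
  have hid : MonoidHom.id (PresentedGroup R) = 1 := by
    apply PresentedGroup.ext
    intro a
    simp [hall a]
  exact fun g => DFunLike.congr_fun hid g

/-- a reduced spherical diagram over a subcomplex is one over the complex -/
lemma dr_sub {X R : Type} (r : R → Fin 4 → X × Bool) (S : Set R) (h : DR r) :
    DR (fun e : S => r e) := by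
  intro D hD
  refine h { D := D.D, finD := D.finD, nonemptyD := D.nonemptyD, nxt := D.nxt, opp := D.opp,
             opp_ne := D.opp_ne, opp_opp := D.opp_opp, connected := D.connected,
             euler := D.euler, cell := fun d => (D.cell d : R), pos := D.pos, sgn := D.sgn,
             face := D.face, cell_nxt := fun d => by rw [D.cell_nxt],
             sgn_nxt := D.sgn_nxt, pos_nxt := D.pos_nxt, letter_opp := D.letter_opp } ?_
  intro d hd
  exact hD d ⟨Subtype.ext hd.1, hd.2⟩

/-- **Almost all reduced labelled oriented trees are diagrammatically reducible.** -/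
theorem result (n : ℕ) (hn : 3 ≤ n) :
    (∀ L : LOG (Fin n) (Fin (n - 1)), IsTree L → ∀ v : Fin n,
      ∀ g : PresentedGroup (Set.range (word L) ∪ {FreeGroup.of v}), g = 1) ∧
    (Nat.card {L : LOG (Fin n) (Fin (n - 1)) // IsTree L ∧ Reduced L ∧
        ∃ S : Set (Fin (n - 1)), ¬ DR (fun e : S => L.rel e)} : ℝ) ≤
      10 ^ 36 / n * (Nat.card {L : LOG (Fin n) (Fin (n - 1)) // IsTree L ∧ Reduced L} : ℝ) := by
  refine ⟨fun L hL v => triv L hL v, ?_⟩
  have key := Pool.Agent.TH22.LT.all_reduced n hn
  have hne : ∀ L : LOG (Fin n) (Fin (n - 1)), IsTree L → ∀ e, L.ini e ≠ L.ter e := by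
    intro L hL
    have hE : Fintype.card (Fin (n - 1)) + 1 = Fintype.card (Fin n) := by
      rw [Fintype.card_fin, Fintype.card_fin]
      omega
    have h1 : Pool.Agent.TH22.LT.Tr (L.ini, L.ter) :=
      Pool.Agent.TH22.LT.tr_of_connected (L.ini, L.ter) hL.connected
    exact fun e => Pool.Agent.TH22.LT.no_loop (L.ini, L.ter) hE h1 e
  have hred : ∀ L : LOG (Fin n) (Fin (n - 1)), IsTree L →
      (Reduced L ↔ Pool.Agent.TH22.LT.RedLOG L) := by
    intro L hL
    constructor
    · rintro ⟨h1, h2, h3⟩
      exact ⟨fun e => ⟨hne L hL e, h1 e⟩, h2, h3⟩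
    · rintro ⟨h1, h2, h3⟩
      exact ⟨fun e => (h1 e).2, h2, h3⟩
  have e1 : {L : LOG (Fin n) (Fin (n - 1)) | (Pool.Agent.TH22.LT.gr (L.ini, L.ter)).IsTree ∧
      (Pool.Agent.TH22.LT.RedLOG L ∧ ¬ DR L.rel)} =
      {L : LOG (Fin n) (Fin (n - 1)) | IsTree L ∧ Reduced L ∧
        ∃ S : Set (Fin (n - 1)), ¬ DR (fun e : S => L.rel e)} := by
    ext L
    constructor
    · rintro ⟨h1, h2, h3⟩
      refine ⟨h1, (hred L h1).2 h2, Set.univ, ?_⟩
      intro h4
      apply h3
      intro D hD
      refine h4 { D := D.D, finD := D.finD, nonemptyD := D.nonemptyD, nxt := D.nxt, opp := D.opp,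
                  opp_ne := D.opp_ne, opp_opp := D.opp_opp, connected := D.connected,
                  euler := D.euler, cell := fun d => ⟨D.cell d, trivial⟩, pos := D.pos,
                  sgn := D.sgn, face := D.face, cell_nxt := fun d => by rw [D.cell_nxt],
                  sgn_nxt := D.sgn_nxt, pos_nxt := D.pos_nxt, letter_opp := D.letter_opp } ?_
      intro d hd
      exact hD d ⟨congrArg Subtype.val hd.1, hd.2⟩
    · rintro ⟨h1, h2, S, h3⟩
      exact ⟨h1, (hred L h1).1 h2, fun h4 => h3 (dr_sub L.rel S h4)⟩
  have e2 : {L : LOG (Fin n) (Fin (n - 1)) | (Pool.Agent.TH22.LT.gr (L.ini, L.ter)).IsTree ∧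
      Pool.Agent.TH22.LT.RedLOG L} =
      {L : LOG (Fin n) (Fin (n - 1)) | IsTree L ∧ Reduced L} := by
    ext L
    constructor
    · rintro ⟨h1, h2⟩
      exact ⟨h1, (hred L h1).2 h2⟩
    · rintro ⟨h1, h2⟩
      exact ⟨h1, (hred L h1).1 h2⟩
  rw [e1, e2] at key
  have c1 : Nat.card {L : LOG (Fin n) (Fin (n - 1)) // IsTree L ∧ Reduced L ∧
      ∃ S : Set (Fin (n - 1)), ¬ DR (fun e : S => L.rel e)} =
      {L : LOG (Fin n) (Fin (n - 1)) | IsTree L ∧ Reduced L ∧
        ∃ S : Set (Fin (n - 1)), ¬ DR (fun e : S => L.rel e)}.ncard := Nat.card_coe_set_eq _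
  have c2 : Nat.card {L : LOG (Fin n) (Fin (n - 1)) // IsTree L ∧ Reduced L} =
      {L : LOG (Fin n) (Fin (n - 1)) | IsTree L ∧ Reduced L}.ncard := Nat.card_coe_set_eq _
  rw [c1, c2]
  exact key

end Pool.Agent.Results.MP_6de9fc_gt.ReducedTrees
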