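import Pool.Agent.X237.FS.AsphPos

/-!
# Asphericity of pairs of 2-complexes with free sides in a covering

Let `K₀ ⊆ K` be 2-complexes with one vertex, given by presentations: `K₀` has the 1-cells `V₀` and
the 2-cells `E₀`, attached along the words `s₀`, and `K` has in addition the 1-cells `X` and the
2-cells `R`, attached along the words `s`. Let `ρ : π₁(K) → A` be a homomorphism to any group.
Suppose that, in the covering of `K` belonging to `ρ`, every nonempty finite set of lifts of the new
2-cells `R` has a free side: a lift of a new 1-cell (an element of `X`) which occurs once in the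
boundary of one 2-cell of the set and not in the boundaries of the others.

(1) Then `π₁(K₀) → π₁(K)` is injective, and `K₀` is aspherical if and only if `K` is aspherical.

(2) This holds in particular if the new relations have the form `x_e u_e = y_e v_e` (or
`u_e x_e = v_e y_e`), where `u_e`, `v_e` are words in the letters of `X` and in the letters of `V₀`
and their inverses, the graph with the vertices `X` and the edges `{x_e, y_e}` has no cycles, and
the relations are homogeneous for some weights of the letters of `X`; the complex `K₀` is arbitrary.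
Then, moreover, if all subcomplexes of `K₀` are aspherical, all subcomplexes of `K` are aspherical
(it suffices to consider the subcomplexes which contain the 1-skeleton, because a further 1-cell
does not change the asphericity).

Here asphericity means that there are no nontrivial 2-cycles in the cellular chain complex of the
universal covering, with the integral coefficients; this group is `H₂` of the universal covering,
which is `π₂`. For subcomplexes of finite contractible 2-complexes, the case of the question, this
reduces the asphericity of `K` to the one of `K₀`. In the absolute case (`K₀` a point) asphericity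
of `K` was known for relations of the form (2), by Adian, Remmers and Gersten, without homogeneity.
-/

set_option autoImplicit false

namespace Pool.Agent.Results.MP_6de9fc_gt.RelativeCoverings

open Pool.Agent.X237.FS

variable {V₀ E₀ X R : Type}

/-- The group of `s₀` embeds in the group of `s₀` and `s`, and the presentation complex of `s₀` is
aspherical if and only if the one of `s₀` and `s` is. -/
def Conclusion (s₀ : E₀ → List (V₀ × Bool)) (s : R → List ((V₀ ⊕ X) × Bool)) : Prop :=
  Function.Injective (incl s₀ s) ∧ (Aspherical s₀ ↔ Aspherical (join s₀ s))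

/-- The relators `s` say `x_e u_e = y_e v_e` (or they say `u_e x_e = v_e y_e`), where `x_e`, `y_e`
are in `X` and `u_e`, `v_e` are words without inverses of elements of `X`; the graph with the edges
`{x_e, y_e}` has no cycles; both sides have the same weight, the weights of the elements of `X` are
nonnegative integers, and `x_e`, `y_e` have positive weight. -/
def Positive (s : R → List ((V₀ ⊕ X) × Bool)) (ω : X → ℤ) : Prop :=
  ∃ (x y : R → X) (u v : R → List ((V₀ ⊕ X) × Bool)),
    (s = firstW x y u v ∨ s = lastW x y u v) ∧ (∀ e, PosIn (u e) ∧ PosIn (v e)) ∧ Forest x y ∧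
    (∀ z, 0 ≤ ω z) ∧
    ∀ e, 0 < ω (x e) ∧ 0 < ω (y e) ∧ ω (x e) + wtW ω (u e) = ω (y e) + wtW ω (v e)

theorem forest_comp {R₁ : Type} {x y : R → X} (h : Forest x y) (k : R₁ → R)
    (hk : Function.Injective k) : Forest (x ∘ k) (y ∘ k) := by
  intro F hF
  obtain ⟨e, he, z, hz, hz2⟩ := h (F.map ⟨k, hk⟩) (hF.map)
  obtain ⟨e₁, he₁, rfl⟩ := Finset.mem_map.1 he
  refine ⟨e₁, he₁, z, hz, fun e' he' hne => ?_⟩
  exact hz2 (k e') (Finset.mem_map.2 ⟨e', he', rfl⟩) fun h => hne (hk h)

theorem positive_comp {R₁ : Type} {s : R → List ((V₀ ⊕ X) × Bool)} {ω : X → ℤ}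
    (h : Positive s ω) (k : R₁ → R) (hk : Function.Injective k) : Positive (s ∘ k) ω := by
  obtain ⟨x, y, u, v, hs, hp, hF, hω, hw⟩ := h
  refine ⟨x ∘ k, y ∘ k, u ∘ k, v ∘ k, ?_, fun e => hp (k e), forest_comp hF k hk, hω,
    fun e => hw (k e)⟩
  rcases hs with rfl | rfl
  · exact Or.inl rfl
  · exact Or.inr rfl

theorem conclusion_of_free {A : Type} [Group A] (s₀ : E₀ → List (V₀ × Bool))
    (s : R → List ((V₀ ⊕ X) × Bool)) (ρ : Grp (relWords s₀ s) →* A)
    (h : FreeSides (relWords s₀ s) ρ) : Conclusion s₀ s :=
  ⟨incl_injective s₀ s ρ h, asph_join s₀ s ρ h, asph_sub s₀ s (incl_injective s₀ s ρ h)⟩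

theorem conclusion_of_positive (s₀ : E₀ → List (V₀ × Bool)) {s : R → List ((V₀ ⊕ X) × Bool)}
    {ω : X → ℤ} (h : Positive s ω) : Conclusion s₀ s := by
  obtain ⟨x, y, u, v, hs, hp, hF, hω, hw⟩ := h
  obtain ⟨ρ, hρ⟩ := freeSides_relWords s₀ x y u v (fun e => (hp e).1) (fun e => (hp e).2) ω hω
    (fun e => (hw e).1) (fun e => (hw e).2.1) (fun e => (hw e).2.2) hF s hs
  exact conclusion_of_free s₀ s ρ hρ

theorem result :
    -- (1) free sides
    (∀ (V₀ E₀ X R A : Type) [Group A] (s₀ : E₀ → List (V₀ × Bool))
      (s : R → List ((V₀ ⊕ X) × Bool)) (ρ : Grp (relWords s₀ s) →* A),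
      FreeSides (relWords s₀ s) ρ → Conclusion s₀ s) ∧
    -- (2) positive relations
    (∀ (V₀ E₀ X R : Type) (s₀ : E₀ → List (V₀ × Bool)) (s : R → List ((V₀ ⊕ X) × Bool))
      (ω : X → ℤ), Positive s ω → Conclusion s₀ s ∧
        ((∀ (E₁ : Type) (f : E₁ → E₀), Function.Injective f → Aspherical (s₀ ∘ f)) →
          ∀ (E₁ R₁ : Type) (f : E₁ → E₀) (k : R₁ → R), Function.Injective f →
            Function.Injective k → Aspherical (join (s₀ ∘ f) (s ∘ k)))) := by
  refine ⟨?_, ?_⟩
  · intro V₀ E₀ X R A _ s₀ s ρ h
    exact conclusion_of_free s₀ s ρ h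
  · intro V₀ E₀ X R s₀ s ω h
    refine ⟨conclusion_of_positive s₀ h, fun h0 E₁ R₁ f k hf hk => ?_⟩
    exact (conclusion_of_positive (s₀ ∘ f) (positive_comp h k hk)).2.1 (h0 E₁ f hf)

end Pool.Agent.Results.MP_6de9fc_gt.RelativeCoverings
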